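import Pool.Agent.R30B.Stmts

set_option autoImplicit false

/-!
R30B row AG2: agreement, second form.
-/

namespace Pool.Agent.R30B.H77

open Pool.Agent.R30B

theorem ag2 (hA : AgrStmt) : Ag2Stmt := by
  intro D D' hD hD' n j hj hn h0 h1 h1' t
  induction t using Nat.strong_induction_on with
  | _ t ih =>
    intro ht
    by_cases htn : t < n
    · rw [h1 t htn, h1' t htn]
    · obtain ⟨u, rfl⟩ : ∃ u, t = u + 1 := ⟨t - 1, by omega⟩
      have hd : Dia (fun t k => D t (k + 1)) := fun t k => hD t (k + 1)
      have hd' : Dia (fun t k => D' t (k + 1)) := fun t k => hD' t (k + 1)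
      have h2 : D u 2 = D' u 2 := hA (fun t k => D t (k + 1)) (fun t k => D' t (k + 1)) hd hd'
        n j (u + 1) (by omega) hn h1 h1' (fun q hq => ih q hq (by omega)) u (by omega) (by omega)
        (by omega)
      have h3 : D u 1 = D' u 1 := ih u (by omega) (by omega)
      have h4 := hD u 0
      have h5 := hD' u 0
      rw [zero_add] at h4 h5
      rw [h4, h5, h0 u, h3, h2]

end Pool.Agent.R30B.H77
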